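import Pool.Agent.Q132.Cycles

namespace Pool.Agent.Results.MP_87e2cd_co.TwoEqualCycles

open SimpleGraph Pool.Agent.Q132

/-- The vertex labels of the first cycle `C_{4t}`. -/
def fA (t i : ℕ) : ℕ :=
  if i < 2 * t - 2 then zig (4 * t + 3) 3 i
  else zig (6 * t + 1) (2 * t + 2) (4 * t - 1 - i)

/-- The vertex labels of the second cycle `C_{4t}`. -/
def fB (t i : ℕ) : ℕ :=
  if i < 2 * t - 1 then zig (t + 2) (5 * t + 2) i
  else if 2 * t + 2 < i then zig (3 * t + 3) (7 * t + 2) (4 * t - 1 - i)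
  else if i = 2 * t - 1 then 4 * t + 2
  else if i = 2 * t then 2
  else if i = 2 * t + 1 then 12 * t
  else 1

theorem fA1 {t i : ℕ} (h : i < 2 * t - 2) : fA t i = zig (4 * t + 3) 3 i := if_pos h

theorem fA2 {t i j : ℕ} (h : ¬ i < 2 * t - 2) (hj : 4 * t - 1 - i = j) :
    fA t i = zig (6 * t + 1) (2 * t + 2) j := by rw [← hj]; exact if_neg h

theorem fB1 {t i : ℕ} (h : i < 2 * t - 1) : fB t i = zig (t + 2) (5 * t + 2) i := if_pos h

theorem fB2 {t i j : ℕ} (h : ¬ i < 2 * t - 1) (h2 : 2 * t + 2 < i) (hj : 4 * t - 1 - i = j) :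
    fB t i = zig (3 * t + 3) (7 * t + 2) j := by
  rw [← hj]; unfold fB; rw [if_neg h, if_pos h2]

theorem fB3 {t i : ℕ} (ht : 2 ≤ t) (h : i = 2 * t - 1) : fB t i = 4 * t + 2 := by
  unfold fB; rw [if_neg (by omega), if_neg (by omega), if_pos h]

theorem fB4 {t i : ℕ} (ht : 2 ≤ t) (h : i = 2 * t) : fB t i = 2 := by
  unfold fB; rw [if_neg (by omega), if_neg (by omega), if_neg (by omega), if_pos h]

theorem fB5 {t i : ℕ} (ht : 2 ≤ t) (h : i = 2 * t + 1) : fB t i = 12 * t := by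
  unfold fB
  rw [if_neg (by omega), if_neg (by omega), if_neg (by omega), if_neg (by omega), if_pos h]

theorem fB6 {t i : ℕ} (ht : 2 ≤ t) (h : i = 2 * t + 2) : fB t i = 1 := by
  unfold fB
  rw [if_neg (by omega), if_neg (by omega), if_neg (by omega), if_neg (by omega),
    if_neg (by omega)]

theorem covers (t : ℕ) (ht : 2 ≤ t) (l : ℕ) (h1 : 1 ≤ l) (h2 : l ≤ 2 * (4 * t + 4 * t)) :
    (∃ i, i < 4 * t ∧ fA t i = l) ∨ (∃ i, i < 4 * t ∧ fB t i = l) ∨
      (∃ i, i + 1 < 4 * t ∧ fA t i + fA t (i + 1) + l = 20 * t + 2) ∨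
      (fA t (4 * t - 1) + fA t 0 + l = 20 * t + 2) ∨
      (∃ i, i + 1 < 4 * t ∧ fB t i + fB t (i + 1) + l = 20 * t + 2) ∨
      (fB t (4 * t - 1) + fB t 0 + l = 20 * t + 2) := by
  by_cases c : l < 2
  · clear h2
    exact Or.inr (Or.inl ⟨2 * t + 2, by omega, by rw [fB6 ht rfl]; omega⟩)
  replace h1 : 2 ≤ l := by omega
  clear c
  by_cases c : l < 3
  · clear h2
    exact Or.inr (Or.inl ⟨2 * t, by omega, by rw [fB4 ht rfl]; omega⟩)
  replace h1 : 3 ≤ l := by omega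
  clear c
  by_cases c : l < t + 2
  · clear h2
    exact Or.inl ⟨2 * (l - 3) + 1, by omega, by rw [fA1 (by omega), zig_odd]; omega⟩
  replace h1 : t + 2 ≤ l := by omega
  clear c
  by_cases c : l < 2 * t + 2
  · clear h2
    exact Or.inr (Or.inl ⟨2 * (l - (t + 2)), by omega, by rw [fB1 (by omega), zig_even]; omega⟩)
  replace h1 : 2 * t + 2 ≤ l := by omega
  clear c
  by_cases c : l < 3 * t + 3
  · clear h2
    exact Or.inl ⟨4 * t - 1 - (2 * (l - (2 * t + 2)) + 1), by omega, by rw [fA2 (j := 2 * (l - (2 * t + 2)) + 1) (by omega) (by omega), zig_odd]; omega⟩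
  replace h1 : 3 * t + 3 ≤ l := by omega
  clear c
  by_cases c : l < 4 * t + 2
  · clear h2
    exact Or.inr (Or.inl ⟨4 * t - 1 - 2 * (l - (3 * t + 3)), by omega, by rw [fB2 (j := 2 * (l - (3 * t + 3))) (by omega) (by omega) (by omega), zig_even]; omega⟩)
  replace h1 : 4 * t + 2 ≤ l := by omega
  clear c
  by_cases c : l < 4 * t + 3
  · clear h2
    exact Or.inr (Or.inl ⟨2 * t - 1, by omega, by rw [fB3 ht rfl]; omega⟩)
  replace h1 : 4 * t + 3 ≤ l := by omega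
  clear c
  by_cases c : l < 5 * t + 2
  · clear h2
    exact Or.inl ⟨2 * (l - (4 * t + 3)), by omega, by rw [fA1 (by omega), zig_even]; omega⟩
  replace h1 : 5 * t + 2 ≤ l := by omega
  clear c
  by_cases c : l < 6 * t + 1
  · clear h2
    exact Or.inr (Or.inl ⟨2 * (l - (5 * t + 2)) + 1, by omega, by rw [fB1 (by omega), zig_odd]; omega⟩)
  replace h1 : 6 * t + 1 ≤ l := by omega
  clear c
  by_cases c : l < 7 * t + 2
  · clear h2
    exact Or.inl ⟨4 * t - 1 - 2 * (l - (6 * t + 1)), by omega, by rw [fA2 (j := 2 * (l - (6 * t + 1))) (by omega) (by omega), zig_even]; omega⟩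
  replace h1 : 7 * t + 2 ≤ l := by omega
  clear c
  by_cases c : l < 8 * t
  · clear h2
    exact Or.inr (Or.inl ⟨4 * t - 1 - (2 * (l - (7 * t + 2)) + 1), by omega, by rw [fB2 (j := 2 * (l - (7 * t + 2)) + 1) (by omega) (by omega) (by omega), zig_odd]; omega⟩)
  replace h1 : 8 * t ≤ l := by omega
  clear c
  by_cases c : l < 8 * t + 1
  · clear h2
    exact Or.inr (Or.inr (Or.inr (Or.inr (Or.inl ⟨2 * t, by omega, by rw [fB4 ht rfl, fB5 ht rfl]; omega⟩))))
  replace h1 : 8 * t + 1 ≤ l := by omega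
  clear c
  by_cases c : l < 8 * t + 2
  · clear h2
    exact Or.inr (Or.inr (Or.inr (Or.inr (Or.inl ⟨2 * t + 1, by omega, by rw [fB5 ht rfl, fB6 ht rfl]; omega⟩))))
  replace h1 : 8 * t + 2 ≤ l := by omega
  clear c
  by_cases c : l < 10 * t - 2
  · clear h2
    obtain ⟨j, hj⟩ : ∃ j, 20 * t + 2 - l = 10 * t + 5 + j := ⟨20 * t + 2 - l - (10 * t + 5), by omega⟩
    have hs := zig_sum (3 * t + 3) (7 * t + 2) j
    exact Or.inr (Or.inr (Or.inr (Or.inr (Or.inl ⟨4 * t - 2 - j, by omega, by rw [fB2 (j := j + 1) (by omega) (by omega) (by omega), fB2 (j := j) (by omega) (by omega) (by omega)]; omega⟩))))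
  replace h1 : 10 * t - 2 ≤ l := by omega
  clear c
  by_cases c : l < 10 * t - 1
  · clear h2
    exact Or.inr (Or.inr (Or.inr (Or.inl (by rw [fA2 (j := 2 * 0) (by omega) (by omega), fA1 (show 0 < 2 * t - 2 by omega), zig_even, show (0 : ℕ) = 2 * 0 from rfl, zig_even]; omega))))
  replace h1 : 10 * t - 1 ≤ l := by omega
  clear c
  by_cases c : l < 12 * t
  · clear h2
    obtain ⟨j, hj⟩ : ∃ j, 20 * t + 2 - l = 8 * t + 3 + j := ⟨20 * t + 2 - l - (8 * t + 3), by omega⟩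
    have hs := zig_sum (6 * t + 1) (2 * t + 2) j
    exact Or.inr (Or.inr (Or.inl ⟨4 * t - 2 - j, by omega, by rw [fA2 (j := j + 1) (by omega) (by omega), fA2 (j := j) (by omega) (by omega)]; omega⟩))
  replace h1 : 12 * t ≤ l := by omega
  clear c
  by_cases c : l < 12 * t + 1
  · clear h2
    exact Or.inr (Or.inl ⟨2 * t + 1, by omega, by rw [fB5 ht rfl]; omega⟩)
  replace h1 : 12 * t + 1 ≤ l := by omega
  clear c
  by_cases c : l < 14 * t - 1
  · clear h2
    obtain ⟨j, hj⟩ : ∃ j, 20 * t + 2 - l = 6 * t + 4 + j := ⟨20 * t + 2 - l - (6 * t + 4), by omega⟩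
    have hs := zig_sum (t + 2) (5 * t + 2) j
    exact Or.inr (Or.inr (Or.inr (Or.inr (Or.inl ⟨j, by omega, by rw [fB1 (by omega), fB1 (by omega)]; omega⟩))))
  replace h1 : 14 * t - 1 ≤ l := by omega
  clear c
  by_cases c : l < 14 * t
  · clear h2
    have hs := zig_even (t + 2) (5 * t + 2) (t - 1)
    rw [show 2 * (t - 1) = 2 * t - 2 by omega] at hs
    exact Or.inr (Or.inr (Or.inr (Or.inr (Or.inl ⟨2 * t - 2, by omega, by rw [fB1 (by omega), fB3 ht (by omega)]; omega⟩))))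
  replace h1 : 14 * t ≤ l := by omega
  clear c
  by_cases c : l < 16 * t - 3
  · clear h2
    obtain ⟨j, hj⟩ : ∃ j, 20 * t + 2 - l = 4 * t + 6 + j := ⟨20 * t + 2 - l - (4 * t + 6), by omega⟩
    have hs := zig_sum (4 * t + 3) 3 j
    exact Or.inr (Or.inr (Or.inl ⟨j, by omega, by rw [fA1 (by omega), fA1 (by omega)]; omega⟩))
  replace h1 : 16 * t - 3 ≤ l := by omega
  clear c
  by_cases c : l < 16 * t - 2
  · clear h2
    exact Or.inr (Or.inr (Or.inr (Or.inr (Or.inr (by rw [fB2 (j := 2 * 0) (by omega) (by omega) (by omega), fB1 (show 0 < 2 * t - 1 by omega), zig_even, show (0 : ℕ) = 2 * 0 from rfl, zig_even]; omega)))))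
  replace h1 : 16 * t - 2 ≤ l := by omega
  clear c
  by_cases c : l < 16 * t - 1
  · clear h2
    exact Or.inr (Or.inr (Or.inr (Or.inr (Or.inl ⟨2 * t - 1, by omega, by rw [fB3 ht rfl, fB4 ht (by omega)]; omega⟩))))
  replace h1 : 16 * t - 1 ≤ l := by omega
  clear c
  by_cases c : l < 16 * t
  · clear h2
    have hs := zig_odd (4 * t + 3) 3 (t - 2)
    rw [show 2 * (t - 2) + 1 = 2 * t - 3 by omega] at hs
    have hs2 := zig_odd (6 * t + 1) (2 * t + 2) t
    exact Or.inr (Or.inr (Or.inl ⟨2 * t - 3, by omega, by rw [fA1 (by omega), fA2 (j := 2 * t + 1) (by omega) (by omega)]; omega⟩))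
  replace h1 : 16 * t ≤ l := by omega
  clear c
  have hs := zig_even (3 * t + 3) (7 * t + 2) (t - 2)
  exact Or.inr (Or.inr (Or.inr (Or.inr (Or.inl ⟨2 * t + 2, by omega, by rw [fB6 ht rfl, fB2 (j := 2 * (t - 2)) (by omega) (by omega) (by omega)]; omega⟩))))

theorem family (t : ℕ) (ht : 2 ≤ t) :
    EdgeMagic (cycleGraph (4 * t) ⊕g cycleGraph (4 * t)) :=
  edgeMagic_two_cycles (4 * t) (4 * t) (by omega) (by omega) (fA t) (fB t) (20 * t + 2)
    (covers t ht)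

/-- The case `n = 4`. -/
theorem four : EdgeMagic (cycleGraph 4 ⊕g cycleGraph 4) := by
  refine edgeMagic_two_cycles 4 4 (by omega) (by omega)
    (fun i => ([4, 3, 6, 2] : List ℕ).getD i 0) (fun i => ([9, 5, 10, 1] : List ℕ).getD i 0) 22 ?_
  have key : ∀ l < 17, 1 ≤ l →
      (∃ i < 4, ([4, 3, 6, 2] : List ℕ).getD i 0 = l) ∨
      (∃ i < 4, ([9, 5, 10, 1] : List ℕ).getD i 0 = l) ∨
      (∃ i < 3, ([4, 3, 6, 2] : List ℕ).getD i 0 + ([4, 3, 6, 2] : List ℕ).getD (i + 1) 0 + l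
        = 22) ∨
      (([4, 3, 6, 2] : List ℕ).getD (4 - 1) 0 + ([4, 3, 6, 2] : List ℕ).getD 0 0 + l = 22) ∨
      (∃ i < 3, ([9, 5, 10, 1] : List ℕ).getD i 0 + ([9, 5, 10, 1] : List ℕ).getD (i + 1) 0 + l
        = 22) ∨
      (([9, 5, 10, 1] : List ℕ).getD (4 - 1) 0 + ([9, 5, 10, 1] : List ℕ).getD 0 0 + l = 22) := by
    decide +kernel
  intro l h1 h2
  rcases key l (by omega) h1 with ⟨i, h, h'⟩ | ⟨i, h, h'⟩ | ⟨i, h, h'⟩ | h' | ⟨i, h, h'⟩ | h'
  · exact Or.inl ⟨i, h, h'⟩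
  · exact Or.inr (Or.inl ⟨i, h, h'⟩)
  · exact Or.inr (Or.inr (Or.inl ⟨i, by omega, h'⟩))
  · exact Or.inr (Or.inr (Or.inr (Or.inl h')))
  · exact Or.inr (Or.inr (Or.inr (Or.inr (Or.inl ⟨i, by omega, h'⟩))))
  · exact Or.inr (Or.inr (Or.inr (Or.inr (Or.inr h'))))

/-- For every `n ≥ 4` divisible by `4` the disjoint union of two cycles of length `n` is
edge-magic total. -/
theorem result (n : ℕ) (hn : 4 ≤ n) (h : n % 4 = 0) :
    EdgeMagic (cycleGraph n ⊕g cycleGraph n) := by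
  obtain ⟨t, rfl⟩ : ∃ t, n = 4 * t := ⟨n / 4, by omega⟩
  by_cases h1 : t = 1
  · subst h1; exact four
  · exact family t (by omega)

end Pool.Agent.Results.MP_87e2cd_co.TwoEqualCycles
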